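import Pool.Agent.N520.AN.Stm

/-!
Project AN, leaf LOW: the elements of the group expand some plate.
-/

set_option autoImplicit false

open Set Filter Topology

namespace Pool.Agent.N79.AN.Low

open Pool.Agent.N520.AN

section
variable {E : Type} [NormedAddCommGroup E] [NormedSpace ℝ E] [FiniteDimensional ℝ E]


lemma cont (a : E ≃ₗ[ℝ] E) : Continuous (a : E → E) :=
  LinearMap.continuous_of_finiteDimensional a.toLinearMap

/-- the limit space of a translated sequence -/
lemma att_mul (a : E ≃ₗ[ℝ] E) (g : ℕ → E ≃ₗ[ℝ] E) :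
    att (fun j => a * g j) = (att g).map (a : E →ₗ[ℝ] E) := by
  ext x
  simp only [Submodule.mem_map]
  constructor
  · rintro ⟨b, hb, hv⟩
    refine ⟨a.symm x, ⟨b, hb, ?_⟩, by simp⟩
    have := ((cont a.symm).tendsto x).comp hv
    refine this.congr fun j => ?_
    simp
  · rintro ⟨y, ⟨b, hb, hv⟩, rfl⟩
    refine ⟨b, hb, ?_⟩
    have := ((cont a).tendsto y).comp hv
    exact this

lemma finrank_att_mul (a : E ≃ₗ[ℝ] E) (g : ℕ → E ≃ₗ[ℝ] E) :
    Module.finrank ℝ (att (fun j => a * g j)) = Module.finrank ℝ (att g) := by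
  rw [att_mul]
  exact LinearEquiv.finrank_map_eq a (att g)

omit [FiniteDimensional ℝ E] in
/-- the limit space grows when passing to a subsequence -/
lemma att_le_comp (g : ℕ → E ≃ₗ[ℝ] E) (φ : ℕ → ℕ) (hφ : Tendsto φ atTop atTop) :
    att g ≤ att (g ∘ φ) := by
  rintro v ⟨b, hb, hv⟩
  exact ⟨b ∘ φ, hb.comp hφ, hv.comp hφ⟩

end

theorem t_low (h : S_EX) : S_LOW := by
  intro E _ _ _ B q Λ hA hinv hne
  by_contra hcon
  push Not at hcon
  have hseq : ∀ i : ℕ, ∃ g ∈ Λ, ∀ k ∈ Pl B q Λ,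
      ∃ f, ‖k f‖ < (1 / ((i : ℝ) + 1)) * ‖g.symm (k f)‖ := fun i => by
    obtain ⟨g, hg, hk⟩ := hcon (1 / ((i : ℝ) + 1)) (by positivity)
    exact ⟨g, hg, hk⟩
  choose g hg hgk using hseq
  obtain ⟨k0, hk0⟩ := hne
  -- the inverses diverge
  have hsym : ∀ i, (g i).symm ∈ Λ := fun i => Λ.inv_mem (hg i)
  have hDiv : Div (fun i => (g i).symm) := by
    choose f hf using fun i => hgk i k0 hk0
    refine ⟨fun i => (‖k0 (f i)‖)⁻¹ • k0 (f i), fun i => ?_, ?_⟩
    · rw [norm_smul, norm_inv, norm_norm]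
      by_cases h0 : ‖k0 (f i)‖ = 0
      · simp [h0]
      · rw [inv_mul_cancel₀ h0]
    · have hlow : ∀ i : ℕ, (i : ℝ) ≤ ‖(g i).symm ((‖k0 (f i)‖)⁻¹ • k0 (f i))‖ := by
        intro i
        have h1 := hf i
        have hne0 : 0 < ‖k0 (f i)‖ := by
          rcases (norm_nonneg (k0 (f i))).lt_or_eq with hlt | heq
          · exact hlt
          · exfalso
            have hz : k0 (f i) = 0 := norm_eq_zero.mp heq.symm
            rw [hz] at h1
            simp at h1
        rw [map_smul, norm_smul, norm_inv, norm_norm]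
        rw [inv_mul_eq_div, le_div_iff₀ hne0]
        have hi : (0 : ℝ) < (i : ℝ) + 1 := by positivity
        rw [one_div, inv_mul_eq_div, lt_div_iff₀ hi] at h1
        nlinarith
      exact tendsto_atTop_mono hlow tendsto_natCast_atTop_atTop
  obtain ⟨φ, hφ, hq⟩ := hA.div _ hsym hDiv
  set s : ℕ → E ≃ₗ[ℝ] E := (fun i => (g i).symm) ∘ φ with hs
  have hsΛ : ∀ i, s i ∈ Λ := fun i => hsym (φ i)
  obtain ⟨a, ha, v, hv, hav⟩ := hinv s hsΛ hq
  have hasΛ : ∀ j, a * s j ∈ Λ := fun j => Λ.mul_mem ha (hsΛ j)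
  have hqa : Module.finrank ℝ (att (fun j => a * s j)) = q := by
    rw [finrank_att_mul, hq]
  have hanti : ∀ v ∈ att s, (∀ w ∈ att (fun j => a * s j), B v w = 0) → v = 0 := by
    rcases hA.anti s (fun j => a * s j) hsΛ hasΛ hq hqa with heq | hh
    · exfalso
      apply hav
      rw [heq, att_mul]
      exact Submodule.mem_map_of_mem hv
    · exact hh
  -- the plates
  have hpl : ∀ i : ℕ, ∃ k ∈ Pl B q Λ, ∀ x, x ∈ range k ↔
      ∀ w ∈ att (fun j => g (φ i) * (a * s j)), B x w = 0 := by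
    intro i
    refine h E B q Λ hA _ (fun j => Λ.mul_mem (hg (φ i)) (hasΛ j)) ?_
    rw [finrank_att_mul, hqa]
  choose k hk hkr using hpl
  choose f hf using fun i => hgk (φ i) (k i) (hk i)
  -- the vectors
  set x : ℕ → E := fun i => k i (f i) with hx
  have hpos : ∀ i, 0 < ‖s i (x i)‖ := by
    intro i
    have h1 := hf i
    rcases (norm_nonneg (s i (x i))).lt_or_eq with hlt | heq
    · exact hlt
    · exfalso
      have h2 : ‖(g (φ i)).symm (k i (f i))‖ = 0 := heq.symm
      rw [h2, mul_zero] at h1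
      exact absurd h1 (not_lt.mpr (norm_nonneg _))
  set u : ℕ → E := fun i => (‖s i (x i)‖)⁻¹ • s i (x i) with hu
  have hun : ∀ i, ‖u i‖ = 1 := by
    intro i
    rw [hu]
    simp only
    rw [norm_smul, norm_inv, norm_norm, inv_mul_cancel₀ (hpos i).ne']
  have huB : ∀ i, ∀ w ∈ att (fun j => a * s j), B (u i) w = 0 := by
    intro i w hw
    have h1 : B (x i) (g (φ i) w) = 0 := by
      refine (hkr i (x i)).1 ⟨f i, rfl⟩ _ ?_
      rw [att_mul (g (φ i)) (fun j => a * s j)]
      exact Submodule.mem_map_of_mem hw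
    have h2 : B (s i (x i)) w = 0 := by
      have h3 := hA.pres (g (φ i)) (hg (φ i)) (s i (x i)) w
      rw [← h3]
      have h4 : g (φ i) (s i (x i)) = x i := by
        simp [hs]
      rw [h4, h1]
    rw [hu]
    simp only [map_smul, LinearMap.smul_apply, h2, smul_zero]
  -- the small vectors
  set b : ℕ → E := fun i => (‖s i (x i)‖)⁻¹ • x i with hb
  have hsb : ∀ i, s i (b i) = u i := by
    intro i
    rw [hb, hu]
    simp only [map_smul]
  have hb0 : Tendsto b atTop (𝓝 0) := by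
    rw [tendsto_zero_iff_norm_tendsto_zero]
    have hup : ∀ i, ‖b i‖ ≤ 1 / ((i : ℝ) + 1) := by
      intro i
      have h1 := hf i
      have hp := hpos i
      rw [hb]
      simp only
      rw [norm_smul, norm_inv, norm_norm, inv_mul_eq_div, div_le_iff₀ hp]
      have h2 : ‖x i‖ < 1 / ((φ i : ℝ) + 1) * ‖s i (x i)‖ := h1
      have h3 : 1 / ((φ i : ℝ) + 1) ≤ 1 / ((i : ℝ) + 1) := by
        apply one_div_le_one_div_of_le (by positivity)
        have : (i : ℝ) ≤ φ i := by exact_mod_cast hφ.id_le i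
        linarith
      exact h2.le.trans (mul_le_mul_of_nonneg_right h3 hp.le)
    exact squeeze_zero (fun _ => norm_nonneg _) hup tendsto_one_div_add_atTop_nhds_zero_nat
  -- compactness
  obtain ⟨u0, hu0, ψ, hψ, hlim⟩ := (isCompact_sphere (0 : E) 1).tendsto_subseq
    (x := u) (fun i => by simp [hun i])
  have hu0n : ‖u0‖ = 1 := by simpa using hu0
  have hmem : u0 ∈ att (s ∘ ψ) := by
    refine ⟨b ∘ ψ, hb0.comp hψ.tendsto_atTop, ?_⟩
    refine hlim.congr fun j => ?_
    simp only [Function.comp_apply]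
    rw [hsb]
  have hle : att s ≤ att (s ∘ ψ) := att_le_comp s ψ hψ.tendsto_atTop
  have heq : att s = att (s ∘ ψ) := by
    apply Submodule.eq_of_le_of_finrank_le hle
    rw [hq]
    exact hA.le _ (fun j => hsΛ (ψ j))
  have hz : u0 = 0 := by
    apply hanti u0 (heq ▸ hmem)
    intro w hw
    have hc : Continuous fun y : E => B y w :=
      LinearMap.continuous_of_finiteDimensional (B.flip w)
    have h1 : Tendsto (fun j => B (u (ψ j)) w) atTop (𝓝 (B u0 w)) :=
      (hc.tendsto u0).comp hlim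
    have h2 : (fun j => B (u (ψ j)) w) = fun _ => 0 := by
      funext j
      exact huB (ψ j) w hw
    rw [h2] at h1
    exact (tendsto_nhds_unique h1 tendsto_const_nhds)
  rw [hz, norm_zero] at hu0n
  exact zero_ne_one hu0n

end Pool.Agent.N79.AN.Low
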